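import Pool.Agent.Lib.MP_fa364e_pr.Mg.G005
import Pool.Agent.Lib.MP_fa364e_pr.Mg.G010
import Pool.Agent.Lib.MP_fa364e_pr.Std.Final
import Pool.Agent.Lib.MP_fa364e_pr.Mg.G017
import Pool.Agent.Lib.MP_fa364e_pr.Mg.G016

/-! Euclidean first-passage percolation: the two exponents agree. -/

namespace FPPX

open MeasureTheory ProbabilityTheory Filter Set
open scoped Topology Pointwise

variable {d : ℕ}

theorem poi_main (hd : 2 ≤ d) {α : ℝ} (hα : 1 < α) {Ω : Type*} [MeasurableSpace Ω]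
    {P : Measure Ω} [IsProbabilityMeasure P] {Q : Ω → Set (RR d)} (h : IsPoisson P Q)
    {near : Ω → RR d → RR d}
    (hn : ∀ᵐ ω ∂P, ∀ x, near ω x ∈ Q ω ∧ ∀ p ∈ Q ω, dist x (near ω x) ≤ dist x p) :
    ∃ μ : ℝ, 0 < μ ∧
      (∀ u : RR d, ‖u‖ = 1 → ∀ᵐ ω ∂P, Tendsto
        (fun n : ℕ => ept α (Q ω) (near ω 0) (near ω ((n : ℝ) • u)) / n) atTop (𝓝 μ)) ∧
      chi1 P (fun ω t => {y | ept α (Q ω) (near ω 0) (near ω y) ≤ t}) (fun _ => μ) =
        chi2 (fun x : RR d => ‖x‖)
          (fun x => variance (fun ω => ept α (Q ω) (near ω 0) (near ω x)) P) := by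
  classical
  have hd1 : 1 ≤ d := by omega
  have hn' : ∀ᵐ ω ∂P, IsNear (Q ω) (near ω) := hn
  set Λ : Measure (Cfg d) := P.map fun ω => can (Q ω) 0 with hΛdef
  have hΛ : IsCellLaw Λ := h.cellLaw 0
  have := hΛ.prob
  set M : LRM d (PP Λ) := poiLRM hd1 hΛ hα with hM
  have hMt : ∀ ω u v, M.t ω u v = tP α (parts ω) u v := fun ω u v => rfl
  have hnm : IsNm M.μ M.cm M.CM := M.isNm
  obtain ⟨μ0, hμ0, hiso⟩ := poi_iso hd1 hα hΛ h hn'
  have hf0 : ∀ ω y, 0 ≤ ept α (Q ω) (near ω 0) (near ω y) := fun ω y => ept_nonneg _ _ _ _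
  refine ⟨μ0, hμ0, ?_, ?_⟩
  · intro u hu
    have h1 := poi_lim hd1 hα hΛ h hn' u
    rw [hiso u hu] at h1
    exact h1
  · have hls : limitShape (fun _ : RR d => μ0) = limitShape (toRR M.μ) := limitShape_const hiso
    have hmem : ∀ κ, κ ∈ chiSet1 P (fun ω t => {y | ept α (Q ω) (near ω 0) (near ω y) ≤ t})
        (fun _ : RR d => μ0) ↔ ∀ᵐ ω ∂P, ∀ᶠ t : ℝ in atTop,
          (t - t ^ κ) • limitShape (toRR M.μ) ⊆ {y | ept α (Q ω) (near ω 0) (near ω y) ≤ t} ∧
          {y | ept α (Q ω) (near ω 0) (near ω y) ≤ t} ⊆ (t + t ^ κ) • limitShape (toRR M.μ) := by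
      intro κ
      show (∀ᵐ ω ∂P, _) ↔ _
      rw [hls]
    have hEr := Er_ae_P hd1 hα hΛ h
    apply sInf_eq_of
    · -- one is in the first set
      rw [hmem]
      have h1 := h.ae_of hΛ M.AS_lin
      filter_upwards [h1, hEr, hn'] with ω h2 h3 h4
      apply shapeP_one hnm (hf0 ω)
      apply linP_of_lat (by linarith) hnm h4 _ h3
      intro ε hε
      have h5 := h2 ε hε
      simp only [hMt, parts_can] at h5
      exact h5
    · -- one is in the second set
      apply mem_chiSet2_of_HypB hd1 hα hΛ h hn' zero_le_one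
      obtain ⟨C, hC⟩ := M.moment 2
      refine ⟨C, fun x => ?_⟩
      have h2 : ∫ ω, (M.t ω 0 x - ∫ ω', M.t ω' 0 x ∂(PP Λ)) ^ 2 ∂(PP Λ) ≤
          ∫ ω, M.t ω 0 x ^ 2 ∂(PP Λ) := by
        have h3 := M.integrable_pow 2 0 x
        have h4 := M.integrable_pow 1 0 x
        simp only [pow_one] at h4
        set m := ∫ ω', M.t ω' 0 x ∂(PP Λ) with hm
        have h5 : ∫ ω, (M.t ω 0 x - m) ^ 2 ∂(PP Λ) =
            ∫ ω, M.t ω 0 x ^ 2 ∂(PP Λ) - m ^ 2 := by
          have h6 : ∀ ω, (M.t ω 0 x - m) ^ 2 = M.t ω 0 x ^ 2 - (2 * m) * M.t ω 0 x + m ^ 2 := by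
            intro ω; ring
          simp only [h6]
          have h7 : Integrable (fun ω => (2 * m) * M.t ω 0 x) (PP Λ) := h4.const_mul _
          have h8 : Integrable (fun ω => M.t ω 0 x ^ 2 - (2 * m) * M.t ω 0 x) (PP Λ) :=
            h3.sub h7
          rw [integral_add h8 (integrable_const _), integral_sub h3 h7, integral_const_mul, ← hm]
          simp
          ring
        rw [h5]
        nlinarith [sq_nonneg m]
      refine h2.trans ((hC x).trans (le_of_eq ?_))
      rw [← Real.rpow_natCast]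
      norm_num
    · -- from the first to the second set
      intro κ hκ hκ1 κ' hκκ'
      rw [hmem] at hκ
      have hκ0 : 0 ≤ κ := by
        by_contra hneg
        push Not at hneg
        have h1 := isol_ae hd1 h
        obtain ⟨ω, hω1, hω2, hω3⟩ := (hκ.and (h1.and hn')).exists
        refine negP_shape hnm hneg (δ := 1 / 4) (by norm_num) ?_ hω1
        intro R
        obtain ⟨x, hx1, hx2⟩ := hω2 R
        refine ⟨x, hx1, fun y hy => ?_⟩
        rw [isol_near hx2 hω3 hy]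
      have h1 : ∀ᵐ ω ∂P, ∀ᶠ r : ℝ in atTop, ∀ v : V d, nm v ≤ r →
          |tP α (Q ω) 0 v - M.μ (tr v)| ≤ r ^ (κ + (κ' - κ) / 4) := by
        filter_upwards [hκ, hEr, hn'] with ω h2 h3 h4
        have h5 := boundP_of_shape hnm (hf0 ω) (κ' := κ + (κ' - κ) / 8) (by linarith)
          (by linarith) hκ1 h2
        exact latP_of_bound (by linarith) h4 (by linarith) (by linarith) h5 h3
      have h2 := poi_ae_nat hd1 hα hΛ h (κ := κ + (κ' - κ) / 4) (by
        filter_upwards [h1] with ω hω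
        exact tendsto_natCast_atTop_atTop.eventually hω)
      have h3 : M.HypA (κ + (κ' - κ) / 2) := M.HypA_of_nat (by linarith) h2
      have h4 : M.SC (κ + 3 * (κ' - κ) / 4) := M.coreA hd (by linarith) (by linarith) h3
      have h5 : M.HypB (κ + 3 * (κ' - κ) / 4) := M.HypB_of_SC (by linarith) h4
      exact mem_chiSet2_of_HypB hd1 hα hΛ h hn' (by linarith) (M.HypB_mono h5 (by linarith))
    · -- from the second to the first set
      intro κ hκ κ' hκκ' hκ1
      have hκ0 : 0 ≤ κ := chiSet2_nonneg hd1 hα hΛ h hn' hκ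
      have hB : M.HypB κ := HypB_of_mem_chiSet2 hd1 hα hΛ h hn' hκ0 hκ
      have h1 : M.SC (κ + (κ' - κ) / 4) := M.coreB (by linarith) (by linarith) hB
      have h2 : M.AS (κ + (κ' - κ) / 2) := M.AS_of_SC h1 (by linarith)
      have h3 := h.ae_of hΛ h2
      rw [hmem]
      filter_upwards [h3, hEr, hn'] with ω h4 h5 h6
      simp only [hMt, parts_can] at h4
      have h7 := boundP_of_lat (by linarith) hnm h6 (κ' := κ + 3 * (κ' - κ) / 4) (by linarith)
        (by linarith) h4 h5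
      exact shapeP_of_bound hnm (hf0 ω) (by linarith) (by linarith) hκ1 h7

end FPPX
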