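import Pool.Agent.Lib.MP_fa364e_pr.Std.Chi

/-! Euclidean first-passage percolation: the definitions used in the final statement. -/

namespace FPPX

open MeasureTheory ProbabilityTheory Filter Set
open scoped Topology

/-- `Q` is a homogeneous Poisson process of unit intensity on `ℝ^d`: the numbers of particles in
Borel sets are random variables, Poisson distributed with mean the volume, and the numbers of
particles in disjoint Borel sets are independent. -/
structure IsPoisson {d : ℕ} {Ω : Type*} [MeasurableSpace Ω] (P : Measure Ω)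
    (Q : Ω → Set (RR d)) : Prop where
  meas : ∀ A : Set (RR d), MeasurableSet A → Measurable fun ω => (Q ω ∩ A).encard
  law : ∀ A : Set (RR d), MeasurableSet A → volume A ≠ ⊤ → ∀ k : ℕ,
    P.real {ω | (Q ω ∩ A).encard = k} =
      Real.exp (-(volume A).toReal) * (volume A).toReal ^ k / (k.factorial : ℝ)
  indep : ∀ (n : ℕ) (A : Fin n → Set (RR d)), (∀ i, MeasurableSet (A i)) →
    (∀ i j, i ≠ j → Disjoint (A i) (A j)) → iIndepFun (fun i ω => (Q ω ∩ A i).encard) P

/-- The passage time of Euclidean first-passage percolation between the particles `p` and `q` of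
`S`: the infimum of `∑ |x_i - x_{i+1}|^α` over the finite sequences of particles from `p` to
`q`. -/
noncomputable def ept {d : ℕ} (α : ℝ) (S : Set (RR d)) (p q : RR d) : ℝ :=
  sInf {s | ∃ (k : ℕ) (x : ℕ → RR d), (∀ i ≤ k, x i ∈ S) ∧ x 0 = p ∧ x k = q ∧
    s = ∑ i ∈ Finset.range k, ‖x i - x (i + 1)‖ ^ α}

end FPPX
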